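import Pool.Agent.Helper20.RE.Stm3
import Pool.Graph.R_pool_sql_team_seeded_b0a926ef.R470.AK.Pat3
import Pool.Graph.R_pool_sql_team_seeded_64922ed1.X163.Ak.Mink

/-! # Package PU: small sets with the pattern -/

set_option autoImplicit false

open Finset

namespace Pool.Agent.Helper46.RE

open Pool.Agent.Helper20.RE Pool.Agent.R470.AK

/-- the tensor power, mapped to the plane by a linear form -/
def tp {M : ℕ} (v : Fin M → ℤ) (A : Finset (ℤ × ℤ)) : Finset (ℤ × ℤ) :=
  (Fintype.piFinset fun _ : Fin M => A).image fun z => (∑ i, (z i).1 * v i, ∑ i, (z i).2 * v i)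

theorem tp_le {M : ℕ} (v : Fin M → ℤ) (A : Finset (ℤ × ℤ)) (f : ℤ × ℤ → ℚ)
    (hf : ∀ z : Fin M → ℤ × ℤ, f (∑ i, (z i).1 * v i, ∑ i, (z i).2 * v i) =
      ∑ i, f (z i) * (v i : ℚ)) :
    ((tp v A).image f).card ≤ (A.image f).card ^ M := by
  unfold tp
  rw [image_image]
  have h : ((Fintype.piFinset fun _ : Fin M => A).image
      (f ∘ fun z => (∑ i, (z i).1 * v i, ∑ i, (z i).2 * v i))) ⊆
      (Fintype.piFinset fun _ : Fin M => A.image f).image fun y => ∑ i, y i * (v i : ℚ) := by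
    intro t ht
    obtain ⟨z, hz, rfl⟩ := mem_image.1 ht
    refine mem_image.2 ⟨fun i => f (z i), Fintype.mem_piFinset.2 fun i =>
      mem_image_of_mem _ (Fintype.mem_piFinset.1 hz i), ?_⟩
    exact (hf z).symm
  refine (card_le_card h).trans (card_image_le.trans ?_)
  rw [Fintype.card_piFinset]
  simp

theorem tp_pr {M : ℕ} (v : Fin M → ℤ) (A : Finset (ℤ × ℤ)) (r : ℚ) :
    ((tp v A).image fun p : ℤ × ℤ => (p.1 : ℚ) + r * (p.2 : ℚ)).card ≤
      (A.image fun p : ℤ × ℤ => (p.1 : ℚ) + r * (p.2 : ℚ)).card ^ M := by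
  apply tp_le
  intro z
  push_cast
  rw [mul_sum, ← sum_add_distrib]
  exact sum_congr rfl fun i _ => by ring

theorem tp_inf {M : ℕ} (v : Fin M → ℤ) (A : Finset (ℤ × ℤ)) :
    ((tp v A).image fun p : ℤ × ℤ => (p.2 : ℚ)).card ≤
      (A.image fun p : ℤ × ℤ => (p.2 : ℚ)).card ^ M := by
  apply tp_le
  intro z
  push_cast
  rfl

/-- for a suitable linear form no difference is lost -/
theorem tp_diff (M : ℕ) (A : Finset (ℤ × ℤ)) : ∃ v : Fin M → ℤ,
    (A.image fun p : ℤ × ℤ => (p.1 : ℚ) + (-1) * (p.2 : ℚ)).card ^ M ≤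
      ((tp v A).image fun p : ℤ × ℤ => (p.1 : ℚ) + (-1) * (p.2 : ℚ)).card := by
  classical
  set D : Finset ℤ := A.image fun p => p.1 - p.2 with hD
  have hDc : (A.image fun p : ℤ × ℤ => (p.1 : ℚ) + (-1) * (p.2 : ℚ)).card = D.card := by
    have : (A.image fun p : ℤ × ℤ => ((p.1 : ℚ) + (-1) * (p.2 : ℚ))) =
        D.image fun z : ℤ => (z : ℚ) := by
      rw [hD, image_image]
      apply image_congr
      intro p _
      simp only [Function.comp]
      push_cast
      ring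
    rw [this, card_image_of_injective _ Int.cast_injective]
  obtain ⟨v, hv⟩ := Pool.Agent.X163.Ak.sep_form (Fintype.piFinset fun _ : Fin M => D)
  refine ⟨v, ?_⟩
  rw [hDc]
  have h1 : ((Fintype.piFinset fun _ : Fin M => D).image
      fun x : Fin M → ℤ => ((∑ i, x i * v i : ℤ) : ℚ)).card = D.card ^ M := by
    rw [card_image_of_injOn, Fintype.card_piFinset]
    · simp
    · intro x hx y hy hxy
      exact hv hx hy (Int.cast_injective hxy)
  rw [← h1]
  apply card_le_card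
  intro t ht
  obtain ⟨d, hd, rfl⟩ := mem_image.1 ht
  have h2 : ∀ i, ∃ p ∈ A, p.1 - p.2 = d i := fun i => mem_image.1 (Fintype.mem_piFinset.1 hd i)
  choose z hz hzd using h2
  refine mem_image.2 ⟨(∑ i, (z i).1 * v i, ∑ i, (z i).2 * v i),
    mem_image.2 ⟨z, Fintype.mem_piFinset.2 hz, rfl⟩, ?_⟩
  push_cast
  rw [mul_sum, ← sum_add_distrib]
  refine sum_congr rfl fun i _ => ?_
  have h3 : ((d i : ℤ) : ℚ) = (z i).1 - (z i).2 := by
    rw [← hzd i]; push_cast; ring
  rw [h3]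
  ring

theorem PU : S_PU := by
  classical
  intro k q hq κ κ' hκ' hκ hE n
  have hκ0 : 0 < κ := hκ'.trans hκ
  -- one finite set
  unfold Expo at hE
  push Not at hE
  obtain ⟨A, hA⟩ := hE
  set r : Fin k → ℚ := fun i => 1 / q i - 1 with hr
  set p : ℕ := (pr (-1) A).card with hp
  set t : ℕ := top r A with ht
  have hAne : A.Nonempty := by
    rw [nonempty_iff_ne_empty]
    rintro rfl
    have h1 : ((pr (-1) (∅ : Finset (ℤ × ℤ))).card : ℝ) = 0 := by simp [pr]
    rw [h1] at hA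
    have : (0 : ℝ) ≤ (top r (∅ : Finset (ℤ × ℤ)) : ℝ) ^ κ := by positivity
    linarith
  have ht1 : 1 ≤ t := by
    have h1 : 1 ≤ (prInf A).card := card_pos.2 (hAne.image _)
    exact h1.trans ((le_max_right _ _).trans (le_max_left _ _))
  have ht1R : (1 : ℝ) ≤ t := by exact_mod_cast ht1
  have htκ : (0 : ℝ) < (t : ℝ) ^ κ := Real.rpow_pos_of_pos (by linarith) _
  -- the slopes
  set S : Finset ℚ := insert 0 (univ.image r) with hS
  have h0 : (-1 : ℚ) ∉ S := by
    rw [hS, mem_insert, mem_image]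
    rintro (h | ⟨i, -, h⟩)
    · norm_num at h
    · rw [hr] at h
      simp only at h
      have : 1 / q i = 0 := by linarith
      rw [div_eq_zero_iff] at this
      rcases this with h' | h'
      · norm_num at h'
      · exact hq i h'
  have hbig : ∀ (M : ℕ) (v : Fin M → ℤ), big S (tp v A) ≤ t ^ M := by
    intro M v
    refine max_le ?_ (Finset.sup_le fun s hs => ?_)
    · refine (tp_inf v A).trans (Nat.pow_le_pow_left ?_ M)
      exact (le_max_right _ _).trans (le_max_left _ _)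
    · refine (tp_pr v A s).trans (Nat.pow_le_pow_left ?_ M)
      rw [hS, mem_insert, mem_image] at hs
      rcases hs with rfl | ⟨i, -, rfl⟩
      · exact (le_max_left _ _).trans (le_max_left _ _)
      · exact (le_sup (f := fun i => (pr (r i) A).card) (mem_univ i)).trans (le_max_right _ _)
  have hpow : ∀ C : ℝ, ∃ A' : Finset (ℤ × ℤ), C * (big S A' : ℝ) ^ κ <
      ((A'.image fun p : ℤ × ℤ => ((p.1 : ℚ) + (-1) * (p.2 : ℚ))).card : ℝ) := by
    intro C
    have hρ : 1 < (p : ℝ) / (t : ℝ) ^ κ := by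
      rw [lt_div_iff₀ htκ, one_mul]
      exact hA
    obtain ⟨M, hM⟩ := pow_unbounded_of_one_lt |C| hρ
    obtain ⟨v, hv⟩ := tp_diff M A
    refine ⟨tp v A, ?_⟩
    have h1 : ((big S (tp v A) : ℕ) : ℝ) ^ κ ≤ ((t : ℝ) ^ κ) ^ M := by
      have h2 : ((big S (tp v A) : ℕ) : ℝ) ≤ (t : ℝ) ^ M := by exact_mod_cast hbig M v
      refine (Real.rpow_le_rpow (Nat.cast_nonneg _) h2 hκ0.le).trans (le_of_eq ?_)
      rw [← Real.rpow_natCast (t : ℝ) M, ← Real.rpow_mul (by linarith), mul_comm,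
        Real.rpow_mul (by linarith), Real.rpow_natCast]
    have h3 : (p : ℝ) ^ M ≤ ((tp v A).image fun p : ℤ × ℤ =>
        ((p.1 : ℚ) + (-1) * (p.2 : ℚ))).card := by
      have h4 := (Nat.cast_le (α := ℝ)).2 hv
      rw [Nat.cast_pow] at h4
      exact h4
    have hb0 : (0 : ℝ) ≤ ((big S (tp v A) : ℕ) : ℝ) ^ κ := by positivity
    calc C * ((big S (tp v A) : ℕ) : ℝ) ^ κ ≤ |C| * ((big S (tp v A) : ℕ) : ℝ) ^ κ :=
          mul_le_mul_of_nonneg_right (le_abs_self C) hb0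
      _ ≤ |C| * ((t : ℝ) ^ κ) ^ M := mul_le_mul_of_nonneg_left h1 (abs_nonneg C)
      _ < ((p : ℝ) / (t : ℝ) ^ κ) ^ M * ((t : ℝ) ^ κ) ^ M :=
          mul_lt_mul_of_pos_right hM (pow_pos htκ M)
      _ = (p : ℝ) ^ M := by
          rw [← mul_pow, div_mul_cancel₀ _ htκ.ne']
      _ ≤ _ := h3
  obtain ⟨F, hF, C, hC, hcov⟩ := pattern_of_slopes h0 κ κ' hκ' hκ hpow n
  refine ⟨F, ?_, C, hC, hcov⟩
  intro ρ hρ
  obtain ⟨x, hx, hxs⟩ := hF ρ hρ
  refine ⟨x, hx, ?_, fun i => ?_⟩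
  · have := hxs 0 (by rw [hS]; exact mem_insert_self _ _)
    simpa using this
  · have := hxs (r i) (by rw [hS]; exact mem_insert_of_mem (mem_image_of_mem _ (mem_univ i)))
    have e : (1 / (r i + 1) : ℚ) = q i := by
      rw [hr]
      simp only [sub_add_cancel, one_div, inv_inv]
    rw [e] at this
    exact this

end Pool.Agent.Helper46.RE
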